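import Pool.Agent.K7.H74.WS.Ker

set_option autoImplicit false

namespace Pool.Agent.K7.H85.AF
open MeasureTheory Finset
open Pool.Agent.K7.H74.WS (e w W W_int W_cont W_nonneg w_eq norm_e e_cont e_sub)

/-- the window -/
noncomputable def ic (η τ y : ℝ) : ℝ := if |y - τ| ≤ η then 1 else 0

lemma ic_nonneg (η τ y : ℝ) : 0 ≤ ic η τ y := by
  unfold ic; split_ifs <;> norm_num

lemma ic_le (η τ y : ℝ) : ic η τ y ≤ 1 := by
  unfold ic; split_ifs <;> norm_num

lemma ic_meas (η : ℝ) : Measurable fun p : ℝ × ℝ => ic η p.1 p.2 := by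
  unfold ic
  exact Measurable.ite (measurableSet_le (by fun_prop) measurable_const) measurable_const measurable_const

/-- the kernel -/
noncomputable def Kr (η α : ℝ) : ℝ := Real.sinc (Real.pi * (2 * η * α)) ^ 2

lemma Kr_W (η α : ℝ) : Kr η α = W (2 * η * α) := rfl

lemma Kr_nonneg (η α : ℝ) : 0 ≤ Kr η α := sq_nonneg _

lemma Kr_int {η : ℝ} (hη : 0 < η) : Integrable (Kr η) :=
  W_int.comp_mul_left' (R := 2 * η) (by positivity)

lemma Kr_cont (η : ℝ) : Continuous (Kr η) :=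
  W_cont.comp (continuous_const.mul continuous_id)

lemma icic {η : ℝ} (y z τ : ℝ) : ic η τ y * ic η τ z =
    Set.indicator (Set.Icc (max y z - η) (min y z + η)) (fun _ => (1 : ℝ)) τ := by
  unfold ic
  rw [Set.indicator_apply]
  by_cases h1 : |y - τ| ≤ η <;> by_cases h2 : |z - τ| ≤ η
  · rw [if_pos h1, if_pos h2, if_pos]
    · norm_num
    · rw [abs_le] at h1 h2
      rw [Set.mem_Icc]
      refine ⟨?_, ?_⟩
      · have := max_le (c := τ + η) (a := y) (b := z) (by linarith) (by linarith)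
        linarith
      · have := le_min (c := τ - η) (a := y) (b := z) (by linarith) (by linarith)
        linarith
  · rw [if_neg h2, mul_zero, if_neg]
    intro h
    rw [Set.mem_Icc] at h
    apply h2
    rw [abs_le]
    have h3 := le_max_right y z
    have h4 := min_le_right y z
    constructor <;> linarith [h.1, h.2]
  · rw [if_neg h1, zero_mul, if_neg]
    intro h
    rw [Set.mem_Icc] at h
    apply h1
    rw [abs_le]
    have h3 := le_max_left y z
    have h4 := min_le_left y z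
    constructor <;> linarith [h.1, h.2]
  · rw [if_neg h1, zero_mul, if_neg]
    intro h
    rw [Set.mem_Icc] at h
    apply h1
    rw [abs_le]
    have h3 := le_max_left y z
    have h4 := min_le_left y z
    constructor <;> linarith [h.1, h.2]

lemma icic_int {η : ℝ} (y z : ℝ) : Integrable fun τ => ic η τ y * ic η τ z := by
  have : (fun τ => ic η τ y * ic η τ z) =
      Set.indicator (Set.Icc (max y z - η) (min y z + η)) (fun _ => (1 : ℝ)) := funext fun τ => icic y z τ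
  rw [this]
  exact (integrable_indicator_iff measurableSet_Icc).2 (integrableOn_const (by simp) (by simp))

lemma icic_eq {η : ℝ} (hη : 0 < η) (y z : ℝ) :
    ∫ τ, ic η τ y * ic η τ z = 2 * η * w ((y - z) / (2 * η)) := by
  have : (fun τ => ic η τ y * ic η τ z) =
      Set.indicator (Set.Icc (max y z - η) (min y z + η)) (fun _ => (1 : ℝ)) := funext fun τ => icic y z τ
  rw [this, integral_indicator measurableSet_Icc, setIntegral_const, smul_eq_mul, mul_one, Measure.real,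
    Real.volume_Icc, ENNReal.toReal_ofReal']
  have h1 : max y z - min y z = |y - z| := max_sub_min_eq_abs' y z
  unfold w
  rw [abs_div, abs_of_pos (by positivity : (0 : ℝ) < 2 * η), mul_max_of_nonneg _ _ (by positivity : (0 : ℝ) ≤ 2 * η),
    mul_zero, mul_sub, mul_div_cancel₀ _ (by positivity : (2 * η) ≠ 0), max_comm]
  congr 1
  rw [← h1]
  ring

lemma icic_le {η : ℝ} (hη : 0 < η) (y z : ℝ) : ∫ τ, ic η τ y * ic η τ z ≤ 2 * η := by
  rw [icic_eq hη]
  have := Pool.Agent.K7.H74.WS.w_le ((y - z) / (2 * η))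
  nlinarith

lemma icic_four {η : ℝ} (hη : 0 < η) (y z : ℝ) :
    ((∫ τ, ic η τ y * ic η τ z : ℝ) : ℂ) = 4 * η ^ 2 * ∫ α : ℝ, (Kr η α : ℂ) * e (α * (y - z)) := by
  rw [icic_eq hη]
  push_cast
  rw [w_eq]
  have h := Measure.integral_comp_mul_left (fun β : ℝ => (W β : ℂ) * e (β * ((y - z) / (2 * η)))) (2 * η)
  have h2 : (fun α : ℝ => (W (2 * η * α) : ℂ) * e (2 * η * α * ((y - z) / (2 * η)))) =
      fun α : ℝ => (Kr η α : ℂ) * e (α * (y - z)) := by
    funext α
    rw [Kr_W]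
    congr 2
    field_simp
  rw [h2] at h
  rw [h, abs_of_pos (by positivity), Complex.real_smul]
  generalize (∫ (β : ℝ), (W β : ℂ) * e (β * ((y - z) / (2 * η)))) = I
  push_cast
  have : (η : ℂ) ≠ 0 := by exact_mod_cast hη.ne'
  field_simp
  ring

section Gen
variable {Z : Type*} [MeasurableSpace Z] (ρ : Measure Z) [IsFiniteMeasure ρ]

lemma int1 {η : ℝ} (hη : 0 < η) (f g : Z → ℝ) (hf : Measurable f) (hg : Measurable g) :
    Integrable (Function.uncurry fun (τ : ℝ) (z : Z) => ic η τ (f z) * ic η τ (g z)) (volume.prod ρ) := by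
  have hm : Measurable (Function.uncurry fun (τ : ℝ) (z : Z) => ic η τ (f z) * ic η τ (g z)) := by
    have h1 : Measurable fun p : ℝ × Z => ic η p.1 (f p.2) :=
      (ic_meas η).comp (measurable_fst.prodMk (hf.comp measurable_snd))
    have h2 : Measurable fun p : ℝ × Z => ic η p.1 (g p.2) :=
      (ic_meas η).comp (measurable_fst.prodMk (hg.comp measurable_snd))
    exact h1.mul h2
  rw [integrable_prod_iff' hm.aestronglyMeasurable]
  refine ⟨Filter.Eventually.of_forall fun z => icic_int (f z) (g z), ?_⟩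
  have h3 : ∀ z, ∫ τ, ‖Function.uncurry (fun (τ : ℝ) (z : Z) => ic η τ (f z) * ic η τ (g z)) (τ, z)‖ =
      2 * η * w ((f z - g z) / (2 * η)) := by
    intro z
    rw [← icic_eq hη]
    refine integral_congr_ae (Filter.Eventually.of_forall fun τ => ?_)
    show ‖ic η τ (f z) * ic η τ (g z)‖ = _
    rw [Real.norm_of_nonneg (mul_nonneg (ic_nonneg _ _ _) (ic_nonneg _ _ _))]
  simp_rw [h3]
  refine Integrable.of_bound (C := 2 * η) ?_ (Filter.Eventually.of_forall fun z => ?_)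
  · have := Pool.Agent.K7.H74.WS.w_cont.measurable
    exact (measurable_const.mul (this.comp ((hf.sub hg).div_const _))).aestronglyMeasurable
  · have h5 := Pool.Agent.K7.H74.WS.w_le ((f z - g z) / (2 * η))
    have h6 := Pool.Agent.K7.H74.WS.w_nonneg ((f z - g z) / (2 * η))
    rw [Real.norm_of_nonneg (by positivity)]
    nlinarith

lemma int2 {η : ℝ} (hη : 0 < η) (f : Z → ℝ) (hf : Measurable f) :
    Integrable (Function.uncurry fun (z : Z) (α : ℝ) => (Kr η α : ℂ) * e (α * f z)) (ρ.prod volume) := by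
  have h1 := ((Kr_int hη).comp_snd ρ)
  refine Integrable.mono' h1 ?_ (Filter.Eventually.of_forall fun p => ?_)
  · have h2 : Measurable fun p : Z × ℝ => (Kr η p.2 : ℂ) :=
      Complex.measurable_ofReal.comp ((Kr_cont η).measurable.comp measurable_snd)
    have h3 : Measurable fun p : Z × ℝ => e (p.2 * f p.1) :=
      e_cont.measurable.comp (measurable_snd.mul (hf.comp measurable_fst))
    exact (h2.mul h3).aestronglyMeasurable
  · show ‖(Kr η p.2 : ℂ) * e (p.2 * f p.1)‖ ≤ _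
    rw [norm_mul, norm_e, mul_one, Complex.norm_real, Real.norm_of_nonneg (Kr_nonneg _ _)]

lemma gen {η : ℝ} (hη : 0 < η) (f g : Z → ℝ) (hf : Measurable f) (hg : Measurable g) :
    ((∫ τ, ∫ z, ic η τ (f z) * ic η τ (g z) ∂ρ : ℝ) : ℂ) =
      4 * η ^ 2 * ∫ α : ℝ, (Kr η α : ℂ) * ∫ z, e (α * (f z - g z)) ∂ρ := by
  rw [integral_integral_swap (int1 ρ hη f g hf hg), ← integral_complex_ofReal]
  simp_rw [icic_four hη]
  rw [integral_const_mul, integral_integral_swap (int2 ρ hη (fun z => f z - g z) (hf.sub hg))]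
  congr 2
  funext α
  rw [integral_const_mul]

end Gen

section Two
variable {X Y : Type*} [MeasurableSpace X] [MeasurableSpace Y] (μ : Measure X) (ν : Measure Y)
  [IsFiniteMeasure μ] [IsFiniteMeasure ν]

noncomputable def FF (μ : Measure X) (f : X → ℝ) (η τ : ℝ) : ℝ := ∫ x, ic η τ (f x) ∂μ

noncomputable def HH (μ : Measure X) (f : X → ℝ) (α : ℝ) : ℂ := ∫ x, e (α * f x) ∂μ

lemma prodFF (f : X → ℝ) (g : Y → ℝ) (η τ : ℝ) :
    ∫ z, ic η τ (f z.1) * ic η τ (g z.2) ∂(μ.prod ν) = FF μ f η τ * FF ν g η τ :=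
  integral_prod_mul (fun x => ic η τ (f x)) (fun y => ic η τ (g y))

lemma prodHH (f : X → ℝ) (g : Y → ℝ) (α : ℝ) :
    ∫ z, e (α * (f z.1 - g z.2)) ∂(μ.prod ν) = HH μ f α * (starRingEnd ℂ) (HH ν g α) := by
  unfold HH
  rw [← integral_conj, ← integral_prod_mul (fun x => e (α * f x)) (fun y => (starRingEnd ℂ) (e (α * g y)))]
  congr 1
  funext z
  rw [mul_sub, e_sub]

lemma bil {η : ℝ} (hη : 0 < η) (f : X → ℝ) (g : Y → ℝ) (hf : Measurable f) (hg : Measurable g) :
    ((∫ τ, FF μ f η τ * FF ν g η τ : ℝ) : ℂ) =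
      4 * η ^ 2 * ∫ α : ℝ, (Kr η α : ℂ) * (HH μ f α * (starRingEnd ℂ) (HH ν g α)) := by
  have h := gen (μ.prod ν) hη (fun z => f z.1) (fun z => g z.2) (hf.comp measurable_fst) (hg.comp measurable_snd)
  simp_rw [prodFF, prodHH] at h
  exact h

lemma bil_int {η : ℝ} (hη : 0 < η) (f : X → ℝ) (g : Y → ℝ) (hf : Measurable f) (hg : Measurable g) :
    Integrable fun τ => FF μ f η τ * FF ν g η τ := by
  have h := (int1 (μ.prod ν) hη (fun z => f z.1) (fun z => g z.2) (hf.comp measurable_fst)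
    (hg.comp measurable_snd)).integral_prod_left
  refine h.congr (Filter.Eventually.of_forall fun τ => ?_)
  exact prodFF μ ν f g η τ

lemma bil_int2 {η : ℝ} (hη : 0 < η) (f : X → ℝ) (g : Y → ℝ) (hf : Measurable f) (hg : Measurable g) :
    Integrable fun α : ℝ => (Kr η α : ℂ) * (HH μ f α * (starRingEnd ℂ) (HH ν g α)) := by
  have h := (int2 (μ.prod ν) hη (fun z => f z.1 - g z.2)
    ((hf.comp measurable_fst).sub (hg.comp measurable_snd))).integral_prod_right
  refine h.congr (Filter.Eventually.of_forall fun α => ?_)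
  show ∫ z, (Kr η α : ℂ) * e (α * (f z.1 - g z.2)) ∂(μ.prod ν) = _
  rw [integral_const_mul, prodHH]

lemma sq_int {η : ℝ} (hη : 0 < η) (f : X → ℝ) (g : Y → ℝ) (hf : Measurable f) (hg : Measurable g) :
    Integrable fun τ => (FF μ f η τ - FF ν g η τ) ^ 2 := by
  have h := ((bil_int μ μ hη f f hf hf).sub ((bil_int μ ν hη f g hf hg).const_mul 2)).add (bil_int ν ν hη g g hg hg)
  refine h.congr (Filter.Eventually.of_forall fun τ => ?_)
  show FF μ f η τ * FF μ f η τ - 2 * (FF μ f η τ * FF ν g η τ) + FF ν g η τ * FF ν g η τ = _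
  ring

lemma sq_int2 {η : ℝ} (hη : 0 < η) (f : X → ℝ) (g : Y → ℝ) (hf : Measurable f) (hg : Measurable g) :
    Integrable fun α => Kr η α * ‖HH μ f α - HH ν g α‖ ^ 2 := by
  have h := ((bil_int2 μ μ hη f f hf hf).sub (bil_int2 μ ν hη f g hf hg)).sub
    ((bil_int2 ν μ hη g f hg hf).sub (bil_int2 ν ν hη g g hg hg))
  refine h.re.congr (Filter.Eventually.of_forall fun α => ?_)
  show RCLike.re ((Kr η α : ℂ) * (HH μ f α * (starRingEnd ℂ) (HH μ f α)) -
    (Kr η α : ℂ) * (HH μ f α * (starRingEnd ℂ) (HH ν g α)) -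
    ((Kr η α : ℂ) * (HH ν g α * (starRingEnd ℂ) (HH μ f α)) -
      (Kr η α : ℂ) * (HH ν g α * (starRingEnd ℂ) (HH ν g α)))) = _
  have e1 : (Kr η α : ℂ) * (HH μ f α * (starRingEnd ℂ) (HH μ f α)) -
    (Kr η α : ℂ) * (HH μ f α * (starRingEnd ℂ) (HH ν g α)) -
    ((Kr η α : ℂ) * (HH ν g α * (starRingEnd ℂ) (HH μ f α)) -
      (Kr η α : ℂ) * (HH ν g α * (starRingEnd ℂ) (HH ν g α))) =
      ((Kr η α * ‖HH μ f α - HH ν g α‖ ^ 2 : ℝ) : ℂ) := by
    push_cast
    rw [← Complex.mul_conj', map_sub]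
    ring
  rw [e1]
  exact Complex.ofReal_re _

lemma sq_eq {η : ℝ} (hη : 0 < η) (f : X → ℝ) (g : Y → ℝ) (hf : Measurable f) (hg : Measurable g) :
    ∫ τ, (FF μ f η τ - FF ν g η τ) ^ 2 = 4 * η ^ 2 * ∫ α : ℝ, Kr η α * ‖HH μ f α - HH ν g α‖ ^ 2 := by
  have h1 := bil μ μ hη f f hf hf
  have h2 := bil μ ν hη f g hf hg
  have h3 := bil ν μ hη g f hg hf
  have h4 := bil ν ν hη g g hg hg
  have i1 := bil_int μ μ hη f f hf hf
  have i2 := bil_int μ ν hη f g hf hg
  have i3 := bil_int ν μ hη g f hg hf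
  have i4 := bil_int ν ν hη g g hg hg
  have j1 := bil_int2 μ μ hη f f hf hf
  have j2 := bil_int2 μ ν hη f g hf hg
  have j3 := bil_int2 ν μ hη g f hg hf
  have j4 := bil_int2 ν ν hη g g hg hg
  have e1 : ∫ τ, (FF μ f η τ - FF ν g η τ) ^ 2 = (∫ τ, FF μ f η τ * FF μ f η τ) - (∫ τ, FF μ f η τ * FF ν g η τ) -
      ((∫ τ, FF ν g η τ * FF μ f η τ) - ∫ τ, FF ν g η τ * FF ν g η τ) := by
    have k1 : Integrable fun τ => FF μ f η τ * FF μ f η τ - FF μ f η τ * FF ν g η τ := i1.sub i2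
    have k2 : Integrable fun τ => FF ν g η τ * FF μ f η τ - FF ν g η τ * FF ν g η τ := i3.sub i4
    rw [← integral_sub i1 i2, ← integral_sub i3 i4, ← integral_sub k1 k2]
    congr 1
    funext τ
    ring
  have e2 : ((∫ α : ℝ, Kr η α * ‖HH μ f α - HH ν g α‖ ^ 2 : ℝ) : ℂ) =
      (∫ α : ℝ, (Kr η α : ℂ) * (HH μ f α * (starRingEnd ℂ) (HH μ f α))) -
      (∫ α : ℝ, (Kr η α : ℂ) * (HH μ f α * (starRingEnd ℂ) (HH ν g α))) -
      ((∫ α : ℝ, (Kr η α : ℂ) * (HH ν g α * (starRingEnd ℂ) (HH μ f α))) -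
        ∫ α : ℝ, (Kr η α : ℂ) * (HH ν g α * (starRingEnd ℂ) (HH ν g α))) := by
    have k1 : Integrable fun α => (Kr η α : ℂ) * (HH μ f α * (starRingEnd ℂ) (HH μ f α)) -
      (Kr η α : ℂ) * (HH μ f α * (starRingEnd ℂ) (HH ν g α)) := j1.sub j2
    have k2 : Integrable fun α => (Kr η α : ℂ) * (HH ν g α * (starRingEnd ℂ) (HH μ f α)) -
      (Kr η α : ℂ) * (HH ν g α * (starRingEnd ℂ) (HH ν g α)) := j3.sub j4
    rw [← integral_sub j1 j2, ← integral_sub j3 j4, ← integral_sub k1 k2, ← integral_complex_ofReal]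
    congr 1
    funext α
    push_cast
    rw [← Complex.mul_conj', map_sub]
    ring
  have e3 : ((∫ τ, (FF μ f η τ - FF ν g η τ) ^ 2 : ℝ) : ℂ) =
      ((4 * η ^ 2 * ∫ α : ℝ, Kr η α * ‖HH μ f α - HH ν g α‖ ^ 2 : ℝ) : ℂ) := by
    rw [e1]
    push_cast
    rw [h1, h2, h3, h4, e2]
    ring
  exact_mod_cast e3

end Two

end Pool.Agent.K7.H85.AF
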