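import Pool.Agent.K7.H74.AF.Stm
import Pool.Agent.K7.H85.AF.Par

set_option autoImplicit false

/-! Project AF, job V1 (helper85): the variance and the Fourier transform. -/

namespace Pool.Agent.K7.H85.AF
open MeasureTheory Finset
open Pool.Agent.K7.H74.AF

lemma e_same (t : ℝ) : Pool.Agent.K7.H74.WS.e t = e t := rfl

lemma e_cont : Continuous e := Pool.Agent.K7.H74.WS.e_cont
lemma norm_e (t : ℝ) : ‖e t‖ = 1 := Pool.Agent.K7.H74.WS.norm_e t

lemma e_sum {ι : Type*} (s : Finset ι) (f : ι → ℝ) : e (∑ i ∈ s, f i) = ∏ i ∈ s, e (f i) := by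
  classical
  induction s using Finset.induction_on with
  | empty => simp [e]
  | insert a s ha ih =>
    rw [Finset.sum_insert ha, Finset.prod_insert ha, ← ih]
    exact Pool.Agent.K7.H74.WS.e_add _ _

/-- the form -/
def fo (k : ℕ) {t : ℕ} (u : Fin t → ℝ) : ℝ := ∑ i, u i ^ k

lemma fo_meas (k t : ℕ) : Measurable (fo k : (Fin t → ℝ) → ℝ) := by
  unfold fo
  fun_prop

/-- the points of the box, shifted -/
noncomputable def mu {t : ℕ} (b : Fin t → ℕ) (ξ : Fin t → ℝ) : Measure (Fin t → ℝ) :=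
  ∑ x ∈ Box b, Measure.dirac fun i => (x i : ℝ) + ξ i

/-- the real box -/
noncomputable def nu {t : ℕ} (b : Fin t → ℕ) : Measure (Fin t → ℝ) :=
  Measure.pi fun i => volume.restrict (Set.Ico (lo (b i) : ℝ) ((3 : ℝ) ^ b i))

instance {t : ℕ} (b : Fin t → ℕ) (ξ : Fin t → ℝ) : IsFiniteMeasure (mu b ξ) := by
  unfold mu
  infer_instance

instance {t : ℕ} (b : Fin t → ℕ) : IsFiniteMeasure (nu b) := by
  unfold nu
  infer_instance

lemma int_mu {E : Type*} [NormedAddCommGroup E] [NormedSpace ℝ E] [CompleteSpace E] {t : ℕ} (b : Fin t → ℕ)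
    (ξ : Fin t → ℝ) (g : (Fin t → ℝ) → E) :
    ∫ u, g u ∂(mu b ξ) = ∑ x ∈ Box b, g fun i => (x i : ℝ) + ξ i := by
  unfold mu
  rw [integral_finset_sum_measure]
  · simp_rw [integral_dirac]
  · intro x _
    exact integrable_dirac (by simp)

lemma FF_mu (k : ℕ) {t : ℕ} (ξ : Fin t → ℝ) (b : Fin t → ℕ) (η τ : ℝ) :
    FF (mu b ξ) (fo k) η τ = (cn k ξ b η τ : ℝ) := by
  classical
  unfold FF cn
  rw [int_mu, Finset.card_filter]
  push_cast
  refine Finset.sum_congr rfl fun x _ => ?_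
  unfold ic fo
  split_ifs <;> rfl

lemma FF_nu (k : ℕ) {t : ℕ} (b : Fin t → ℕ) (η τ : ℝ) :
    FF (nu b) (fo k) η τ = vl k b η τ := by
  have hm : MeasurableSet {u : Fin t → ℝ | |fo k u - τ| ≤ η} :=
    measurableSet_le (((fo_meas k t).sub_const τ).abs) measurable_const
  unfold FF vl
  have h1 : (fun u : Fin t → ℝ => ic η τ (fo k u)) = Set.indicator {u | |fo k u - τ| ≤ η} (fun _ => (1 : ℝ)) := by
    funext u
    rw [Set.indicator_apply]
    rfl
  rw [h1, integral_indicator hm, setIntegral_const, smul_eq_mul, mul_one, Measure.real]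
  unfold nu
  rw [← Measure.restrict_pi_pi, Measure.restrict_apply hm, ← volume_pi]
  congr 2
  ext u
  simp only [Set.mem_inter_iff, Set.mem_setOf_eq, Set.mem_pi, Set.mem_univ, true_imp_iff, Set.mem_Ico]
  exact and_comm

lemma HH_mu (k : ℕ) {t : ℕ} (ξ : Fin t → ℝ) (b : Fin t → ℕ) (α : ℝ) :
    HH (mu b ξ) (fo k) α = ∏ i, SB k (b i) α (ξ i) := by
  unfold HH SB
  rw [int_mu, Finset.prod_univ_sum]
  refine Finset.sum_congr rfl fun x _ => ?_
  rw [← e_sum]
  unfold fo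
  rw [Finset.mul_sum]
  rfl

lemma lo_le (a : ℕ) : lo a ≤ 3 ^ a := by
  unfold lo
  split_ifs with h
  · exact Nat.zero_le _
  · exact Nat.pow_le_pow_right (by norm_num) (by omega)

lemma lo_le' (a : ℕ) : (lo a : ℝ) ≤ 3 ^ a := by exact_mod_cast lo_le a

lemma HH_nu (k : ℕ) {t : ℕ} (b : Fin t → ℕ) (α : ℝ) :
    HH (nu b) (fo k) α = ∏ i, MB k (b i) α := by
  unfold HH nu
  have h1 : ∀ u : Fin t → ℝ, Pool.Agent.K7.H74.WS.e (α * fo k u) = ∏ i, e (α * u i ^ k) := by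
    intro u
    rw [e_same, ← e_sum]
    unfold fo
    rw [Finset.mul_sum]
  simp_rw [h1]
  rw [integral_fintype_prod_eq_prod (fun _ (v : ℝ) => e (α * v ^ k))]
  refine Finset.prod_congr rfl fun i _ => ?_
  unfold MB
  rw [intervalIntegral.integral_of_le (lo_le' _), integral_Ico_eq_integral_Ioc]

lemma SB_cont (k a : ℕ) : Continuous fun p : ℝ × ℝ => SB k a p.1 p.2 := by
  unfold SB
  refine continuous_finset_sum _ fun x _ => ?_
  exact e_cont.comp (by fun_prop)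

lemma SB_le (k a : ℕ) (α ξ : ℝ) : ‖SB k a α ξ‖ ≤ (blk a).card := by
  unfold SB
  refine (norm_sum_le _ _).trans ?_
  simp_rw [norm_e]
  simp

lemma MB_le (k a : ℕ) (α : ℝ) : ‖MB k a α‖ ≤ (3 : ℝ) ^ a := by
  unfold MB
  have h := intervalIntegral.norm_integral_le_of_norm_le_const (a := (lo a : ℝ)) (b := (3 : ℝ) ^ a)
    (f := fun u => e (α * u ^ k)) (C := 1) (fun u _ => (norm_e _).le)
  rw [one_mul, abs_of_nonneg (by have := lo_le' a; linarith)] at h
  have h2 : (0 : ℝ) ≤ lo a := Nat.cast_nonneg _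
  linarith

lemma SB_mean (k a : ℕ) (α : ℝ) : ∫ ξ in Set.Ioc (0 : ℝ) 1, SB k a α ξ = MB k a α := by
  rw [← intervalIntegral.integral_of_le zero_le_one]
  unfold SB MB
  have hc : ∀ y : ℝ, Continuous fun ξ : ℝ => e (α * (y + ξ) ^ k) := fun y => e_cont.comp (by fun_prop)
  rw [intervalIntegral.integral_finset_sum (f := fun (x : ℕ) (ξ : ℝ) => e (α * ((x : ℝ) + ξ) ^ k))
    fun x _ => (hc (x : ℝ)).intervalIntegrable _ _]
  have h1 : ∀ x : ℕ, ∫ ξ in (0 : ℝ)..1, e (α * ((x : ℝ) + ξ) ^ k) = ∫ u in (x : ℝ)..((x + 1 : ℕ) : ℝ), e (α * u ^ k) := by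
    intro x
    rw [intervalIntegral.integral_comp_add_left (fun u => e (α * u ^ k))]
    push_cast
    rw [add_zero]
  simp_rw [h1]
  unfold blk
  have hc2 : Continuous fun u : ℝ => e (α * u ^ k) := e_cont.comp (by fun_prop)
  rw [intervalIntegral.sum_integral_adjacent_intervals_Ico (a := fun n : ℕ => (n : ℝ)) (lo_le a)
    (fun n _ => hc2.intervalIntegrable _ _)]
  push_cast
  rfl

/-- the mean square of the difference over the shifts -/
lemma mean_sq (k t : ℕ) (b : Fin t → ℕ) (α : ℝ) :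
    ∫ ξ : Fin t → ℝ, ‖∏ i, SB k (b i) α (ξ i) - ∏ i, MB k (b i) α‖ ^ 2 ∂(cube t) =
      ∏ i, EB k (b i) α - ∏ i, ‖MB k (b i) α‖ ^ 2 := by
  haveI hp : ∀ _ : Fin t, IsProbabilityMeasure (volume.restrict (Set.Ioc (0 : ℝ) 1)) := fun _ =>
    ⟨by rw [Measure.restrict_apply_univ, Real.volume_Ioc]; norm_num⟩
  haveI : IsProbabilityMeasure (cube t) := by
    unfold cube
    infer_instance
  set M : ℂ := ∏ i, MB k (b i) α with hM
  have hS : Continuous fun ξ : Fin t → ℝ => ∏ i, SB k (b i) α (ξ i) := by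
    refine continuous_finset_prod _ fun i _ => ?_
    exact (SB_cont k (b i)).comp (continuous_const.prodMk (continuous_apply i))
  have hb : ∀ ξ : Fin t → ℝ, ‖∏ i, SB k (b i) α (ξ i)‖ ≤ ∏ i, ((blk (b i)).card : ℝ) := by
    intro ξ
    rw [norm_prod]
    exact Finset.prod_le_prod (fun i _ => norm_nonneg _) fun i _ => SB_le _ _ _ _
  have i1 : Integrable (fun ξ : Fin t → ℝ => ∏ i, SB k (b i) α (ξ i)) (cube t) :=
    Integrable.of_bound hS.aestronglyMeasurable _ (Filter.Eventually.of_forall hb)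
  have i2 : Integrable (fun ξ : Fin t → ℝ => ‖∏ i, SB k (b i) α (ξ i)‖ ^ 2) (cube t) := by
    refine Integrable.of_bound (C := (∏ i, ((blk (b i)).card : ℝ)) ^ 2) (hS.norm.pow 2).aestronglyMeasurable
      (Filter.Eventually.of_forall fun ξ => ?_)
    rw [Real.norm_of_nonneg (sq_nonneg _)]
    exact pow_le_pow_left₀ (norm_nonneg _) (hb ξ) 2
  have i3 : Integrable (fun ξ : Fin t → ℝ => ((∏ i, SB k (b i) α (ξ i)) * (starRingEnd ℂ) M).re) (cube t) :=
    (i1.mul_const _).re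
  have e1 : ∀ ξ : Fin t → ℝ, ‖∏ i, SB k (b i) α (ξ i) - M‖ ^ 2 = ‖∏ i, SB k (b i) α (ξ i)‖ ^ 2 -
      2 * ((∏ i, SB k (b i) α (ξ i)) * (starRingEnd ℂ) M).re + ‖M‖ ^ 2 := by
    intro ξ
    rw [← Complex.normSq_eq_norm_sq, ← Complex.normSq_eq_norm_sq, ← Complex.normSq_eq_norm_sq, Complex.normSq_sub]
    ring
  simp_rw [e1]
  have i4 : Integrable (fun ξ : Fin t → ℝ => ‖∏ i, SB k (b i) α (ξ i)‖ ^ 2 -
      2 * ((∏ i, SB k (b i) α (ξ i)) * (starRingEnd ℂ) M).re) (cube t) := i2.sub (i3.const_mul 2)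
  rw [integral_add i4 (integrable_const _), integral_sub i2 (i3.const_mul 2), integral_const_mul,
    integral_const, probReal_univ, one_smul]
  have e2 : ∫ ξ : Fin t → ℝ, ‖∏ i, SB k (b i) α (ξ i)‖ ^ 2 ∂(cube t) = ∏ i, EB k (b i) α := by
    have h1 : ∀ ξ : Fin t → ℝ, ‖∏ i, SB k (b i) α (ξ i)‖ ^ 2 = ∏ i, ‖SB k (b i) α (ξ i)‖ ^ 2 := by
      intro ξ
      rw [norm_prod, Finset.prod_pow]
    simp_rw [h1]
    unfold cube
    rw [integral_fintype_prod_eq_prod (fun i (v : ℝ) => ‖SB k (b i) α v‖ ^ 2)]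
    refine Finset.prod_congr rfl fun i _ => ?_
    unfold EB
    rw [intervalIntegral.integral_of_le zero_le_one]
  have e3 : ∫ ξ : Fin t → ℝ, ((∏ i, SB k (b i) α (ξ i)) * (starRingEnd ℂ) M).re ∂(cube t) = ‖M‖ ^ 2 := by
    have h1 : ∫ ξ : Fin t → ℝ, (∏ i, SB k (b i) α (ξ i)) * (starRingEnd ℂ) M ∂(cube t) = M * (starRingEnd ℂ) M := by
      rw [integral_mul_const]
      congr 1
      unfold cube
      rw [integral_fintype_prod_eq_prod (fun i (v : ℝ) => SB k (b i) α v)]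
      rw [hM]
      exact Finset.prod_congr rfl fun i _ => SB_mean k (b i) α
    have h2 := integral_re (i1.mul_const ((starRingEnd ℂ) M))
    have h3 : ∫ ξ : Fin t → ℝ, ((∏ i, SB k (b i) α (ξ i)) * (starRingEnd ℂ) M).re ∂(cube t) =
        (∫ ξ : Fin t → ℝ, (∏ i, SB k (b i) α (ξ i)) * (starRingEnd ℂ) M ∂(cube t)).re := h2
    rw [h3, h1, Complex.mul_conj, Complex.ofReal_re, Complex.normSq_eq_norm_sq]
  rw [e2, e3, hM, norm_prod, Finset.prod_pow]
  ring

theorem v1 : StV1 := by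
  intro k t η hk hη b
  haveI hp : ∀ _ : Fin t, IsProbabilityMeasure (volume.restrict (Set.Ioc (0 : ℝ) 1)) := fun _ =>
    ⟨by rw [Measure.restrict_apply_univ, Real.volume_Ioc]; norm_num⟩
  haveI : IsProbabilityMeasure (cube t) := by
    unfold cube
    infer_instance
  have h1 : ∀ ξ : Fin t → ℝ, ∫⁻ τ : ℝ, ENNReal.ofReal (((cn k ξ b η τ : ℝ) - vl k b η τ) ^ 2) =
      ENNReal.ofReal (4 * η ^ 2 * ∫ α : ℝ, Kr η α * ‖∏ i, SB k (b i) α (ξ i) - ∏ i, MB k (b i) α‖ ^ 2) := by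
    intro ξ
    have h2 := sq_eq (mu b ξ) (nu b) hη (fo k) (fo k) (fo_meas k t) (fo_meas k t)
    have h3 := sq_int (mu b ξ) (nu b) hη (fo k) (fo k) (fo_meas k t) (fo_meas k t)
    simp_rw [FF_mu, FF_nu, HH_mu, HH_nu] at h2 h3
    rw [← h2, ofReal_integral_eq_lintegral_ofReal h3 (Filter.Eventually.of_forall fun τ => sq_nonneg _)]
  simp_rw [h1]
  -- the double integral
  set C : ℝ := (∏ i, ((blk (b i)).card : ℝ) + ∏ i, (3 : ℝ) ^ b i) ^ 2 with hC
  have hM : Continuous fun α : ℝ => ∏ i, MB k (b i) α := by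
    refine continuous_finset_prod _ fun i _ => ?_
    unfold MB
    exact intervalIntegral.continuous_parametric_intervalIntegral_of_continuous' (by
      exact e_cont.comp (by fun_prop)) _ _
  have hD : Continuous fun p : (Fin t → ℝ) × ℝ => ‖∏ i, SB k (b i) p.2 (p.1 i) - ∏ i, MB k (b i) p.2‖ ^ 2 := by
    refine (Continuous.norm (Continuous.sub ?_ (hM.comp continuous_snd))).pow 2
    refine continuous_finset_prod _ fun i _ => ?_
    exact (SB_cont k (b i)).comp (continuous_snd.prodMk ((continuous_apply i).comp continuous_fst))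
  have hDb : ∀ (ξ : Fin t → ℝ) (α : ℝ), ‖∏ i, SB k (b i) α (ξ i) - ∏ i, MB k (b i) α‖ ^ 2 ≤ C := by
    intro ξ α
    rw [hC]
    refine pow_le_pow_left₀ (norm_nonneg _) ((norm_sub_le _ _).trans ?_) 2
    rw [norm_prod, norm_prod]
    exact add_le_add (Finset.prod_le_prod (fun i _ => norm_nonneg _) fun i _ => SB_le _ _ _ _)
      (Finset.prod_le_prod (fun i _ => norm_nonneg _) fun i _ => MB_le _ _ _)
  have hI : Integrable (Function.uncurry fun (ξ : Fin t → ℝ) (α : ℝ) =>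
      Kr η α * ‖∏ i, SB k (b i) α (ξ i) - ∏ i, MB k (b i) α‖ ^ 2) ((cube t).prod volume) := by
    have h4 := ((Kr_int hη).mul_const C).comp_snd (cube t)
    refine Integrable.mono' h4 ?_ (Filter.Eventually.of_forall fun p => ?_)
    · exact (((Kr_cont η).comp continuous_snd).mul hD).aestronglyMeasurable
    · show ‖Kr η p.2 * ‖∏ i, SB k (b i) p.2 (p.1 i) - ∏ i, MB k (b i) p.2‖ ^ 2‖ ≤ Kr η p.2 * C
      rw [Real.norm_of_nonneg (mul_nonneg (Kr_nonneg _ _) (sq_nonneg _))]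
      exact mul_le_mul_of_nonneg_left (hDb _ _) (Kr_nonneg _ _)
  have hI2 : Integrable (fun ξ : Fin t → ℝ => 4 * η ^ 2 * ∫ α : ℝ,
      Kr η α * ‖∏ i, SB k (b i) α (ξ i) - ∏ i, MB k (b i) α‖ ^ 2) (cube t) :=
    hI.integral_prod_left.const_mul _
  rw [← ofReal_integral_eq_lintegral_ofReal hI2 (Filter.Eventually.of_forall fun ξ => mul_nonneg (by positivity)
    (integral_nonneg fun α => mul_nonneg (Kr_nonneg _ _) (sq_nonneg _)))]
  refine ENNReal.ofReal_le_ofReal (le_of_eq ?_)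
  rw [integral_const_mul, integral_integral_swap hI]
  congr 1
  refine integral_congr_ae (Filter.Eventually.of_forall fun α => ?_)
  show ∫ ξ, Kr η α * ‖∏ i, SB k (b i) α (ξ i) - ∏ i, MB k (b i) α‖ ^ 2 ∂(cube t) = _
  rw [integral_const_mul, mean_sq]
  rfl

end Pool.Agent.K7.H85.AF
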